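import Mathlib
import Pool.Agent.V5helper5.CO.Chains

/-!
# Scaled stopping times and divisibility chains

A divisibility chain is a set of positive integers any two of which are comparable under divisibility, for
example the powers of an integer, or the factorials. If the odd terms of the trajectory of `n` (before `1`) are
products `s d` of an element `d` of a divisibility chain with one of `N` numbers `s`, then
`σ_∞(n) ≤ max ((1 + ε) log₂ n, C_ε N)`, where `log₂ n` is the trivial lower bound for `σ_∞(n)` and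
`C_ε = 41 ((1 + ε) / ε) ^ 2`. So if the scaled stopping time of `n` is larger than `(1 + ε) / log 2` (the conjectured
constant is `41.67`) then for every `b ≥ 2` the quotients of the odd terms by their largest divisors of the form
`b ^ v` take at least `σ_∞(n) / C_ε` values; and there are at least `c_ε √σ_∞(n)` odd terms none of which
divides another one, while any set of more than `2.6 √σ_∞(n) + 3.6` odd terms contains two which are not
comparable under divisibility.

Method: if `x` and `T^i x` are of the form `k + s d`, `d` in the chain, with `d` and `d'`, and `i ≤ w`, then the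
smaller one of `d` and `d'` divides the nonzero constant `2^i (T^i x - k') - 3^o (x - k)`, which is at most
`3^w (1 + 2 B)`. So the large ones are at least `w` steps apart, and there are at most `w + log (1 + 2 B)` small
ones for each pair; the optimal `w` is `√(L / N)`.
-/

set_option autoImplicit false

namespace Pool.Agent.Results.MP_f7abf1_nt.DivisibilityChains

open Finset

/-- The `3x+1` function. -/
def T (n : ℕ) : ℕ := if n % 2 = 0 then n / 2 else (3 * n + 1) / 2

/-- `k = σ_∞(n)` is the total stopping time of `n`. -/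
def IsTotalStoppingTime (n k : ℕ) : Prop := T^[k] n = 1 ∧ ∀ j < k, T^[j] n ≠ 1

/-- The first `L` terms of the trajectory of `n` are different. -/
def Distinct (n L : ℕ) : Prop := ∀ i < L, ∀ j < L, T^[i] n = T^[j] n → i = j

/-- `D` consists of positive integers, any two of which are comparable under divisibility. -/
def DivChain (D : Set ℕ) : Prop := (∀ d ∈ D, 0 < d) ∧ ∀ d ∈ D, ∀ d' ∈ D, d ∣ d' ∨ d' ∣ d

/-- The same notion for sets of integers. -/
def IntDivChain (D : Set ℤ) : Prop := (∀ d ∈ D, 0 < d) ∧ ∀ d ∈ D, ∀ d' ∈ D, d ∣ d' ∨ d' ∣ d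

/-- All odd ones among the first `L` terms of the trajectory of `n` are of the form `s d` with `s ∈ Q`,
`d ∈ D`. -/
def Covers (n L : ℕ) (Q : Finset ℕ) (D : Set ℕ) : Prop :=
  ∀ j < L, T^[j] n % 2 = 1 → ∃ s ∈ Q, ∃ d ∈ D, T^[j] n = s * d

/-- The map `T` on the integers. -/
def Tz (x : ℤ) : ℤ := if x % 2 = 0 then x / 2 else (3 * x + 1) / 2

/-- `y = k + s d` for a member `d` of `D` and a pair `(k, s)` in `P` with `s ≠ 0`, and `2 ^ i` does not divide
`y - k` when `i ≥ 1` and `T^i k` is also the first coordinate of a pair in `P`. (The last condition holds if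
`y - k` is odd, and if no forward iterate `T^i k`, `i ≥ 1`, is a first coordinate.) -/
def Special (P : Finset (ℤ × ℤ)) (D : Set ℤ) (y : ℤ) : Prop :=
  ∃ k s d : ℤ, (k, s) ∈ P ∧ s ≠ 0 ∧ d ∈ D ∧ y = k + s * d ∧
    ∀ i : ℕ, 1 ≤ i → (∃ s' : ℤ, (Tz^[i] k, s') ∈ P) → ¬ (2 : ℤ) ^ i ∣ y - k

/-- **Main theorem.** Let `n ≥ 1`, and let `L` be such that the first `L` terms of the trajectory of `n` are
different; for example `L = σ_∞(n)` if this is finite. Let `ε > 0`.

(1) If the odd ones of these terms are of the form `s d`, `s ∈ Q`, `d ∈ D`, where `D` is a divisibility chain, then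
`L ≤ (1 + ε) log₂ n` or `L ≤ 41 ((1 + ε) / ε) ^ 2 |Q|`.

(2) `L ≤ (1 + ε) log₂ n`, or there is a set `A` of odd ones of these terms, none of which divides another one, with
`√L ≤ 12.4 ((1 + ε) / ε) |A|`.

(3) A set of odd ones of these terms any two of which are comparable under divisibility has at most
`2.6 √L + 3.6` elements.

(4) Let `D` be a divisibility chain of integers, and let `P` be a set of `N` pairs of integers with first
coordinates of size at most `B`. At most `2.6 √(L N) + N (3.6 + log₂ (1 + 2 B))` of these terms are special for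
`P` and `D`. -/
theorem result (n L : ℕ) (hn : 1 ≤ n) (hL : Distinct n L ∨ IsTotalStoppingTime n L)
    (ε : ℝ) (hε : 0 < ε) :
    (∀ D : Set ℕ, DivChain D → ∀ Q : Finset ℕ, Covers n L Q D →
      (L : ℝ) ≤ (1 + ε) * Real.logb 2 n ∨ (L : ℝ) ≤ 41 * ((1 + ε) / ε) ^ 2 * Q.card) ∧
    ((L : ℝ) ≤ (1 + ε) * Real.logb 2 n ∨
      ∃ A : Finset ℕ, (∀ y ∈ A, y % 2 = 1 ∧ ∃ t < L, y = T^[t] n) ∧
        (∀ y ∈ A, ∀ z ∈ A, y ∣ z → y = z) ∧ √(L : ℝ) ≤ 12.4 * ((1 + ε) / ε) * A.card) ∧
    (∀ C : Finset ℕ, (∀ y ∈ C, y % 2 = 1 ∧ ∃ t < L, y = T^[t] n) →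
      (∀ y ∈ C, ∀ z ∈ C, y ∣ z ∨ z ∣ y) → (C.card : ℝ) ≤ 2.6 * √(L : ℝ) + 3.6) ∧
    (∀ D : Set ℤ, IntDivChain D → ∀ (P : Finset (ℤ × ℤ)) (B : ℕ), (∀ q ∈ P, |q.1| ≤ B) →
      ∀ F : Finset ℕ, F ⊆ range L → (∀ t ∈ F, Special P D (T^[t] n : ℕ)) →
        (F.card : ℝ) ≤ 2.6 * √((L : ℝ) * P.card) + P.card * (3.6 + Real.logb 2 (1 + 2 * B))) := by
  have hinj : Distinct n L := by
    rcases hL with h | h
    · exact h
    · exact Pool.Agent.V5helper5.CO.time_inj (f := T) h
  refine ⟨?_, ?_, ?_, ?_⟩
  · intro D hD Q hQ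
    exact Pool.Agent.V5helper5.CO.nat_mult hn hε Q hD hinj hQ
  · exact Pool.Agent.V5helper5.CO.nat_anti hn hε hinj
  · intro C hC hch
    exact Pool.Agent.V5helper5.CO.nat_chain hn hinj C hC hch
  · intro D hD P B hB F hF hsp
    refine Pool.Agent.V5helper5.CO.ch_special (x := (n : ℤ)) P hD hB
      (Pool.Agent.V5helper5.CO.inj_cast hinj) F hF (fun t ht => ?_)
    rw [← Pool.Agent.V5helper5.CO.TN_cast]
    exact hsp t ht

end Pool.Agent.Results.MP_f7abf1_nt.DivisibilityChains
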