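import Mathlib
import Pool.Agent.V5helper76.FD.Lim

/-!
# Terms of `3x+1` trajectories with few digits, and sums of few units

Let `Γ` be a finitely generated group of rational numbers and `C` a finite set of rational numbers. Along every
trajectory of the `3x+1` map, up to any time before the first repetition, the terms which are sums of at most `k`
numbers of `C Γ` are rare: at most `ε` times the number of all terms, plus a constant, if `Γ` contains no
`2 ^ i / 3 ^ j` with `j ≤ i`, `i ≥ 1`; and the same for the odd terms if `Γ` contains none with `1 ≤ j ≤ i`.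

In particular almost all terms have more than `k` blocks of digits in base `b`, `b` not a power of `2`, and so
have almost all the odd terms for every base `b ≥ 2`. An upper bound `(γ + o(1)) log n` for the total stopping
time is equivalent to the same upper bound for the number of these terms.

Method: in the identity `2 ^ a T^a y = 3 ^ o y + c(a, y)` the number `c(a, y)` is a sum of `o` products of powers
of `2` and `3`, `o` the number of the odd ones of the `a` terms. If `y` and `T^a y` are sums of `k` units then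
this is a unit equation in at most `2 k + o` unknowns. By the finiteness of the nondegenerate solutions (subspace
theorem) the part of the equation which contains the largest unit of `y` contains no unit of `c(a, y)`, so it has
at most `2 k` terms, and `2 ^ a / 3 ^ o` is in one of finitely many cosets of `Γ`, which do not depend on the
length of the window. By Dickson's lemma `a`, respectively `o`, is bounded.
-/

set_option autoImplicit false

namespace Pool.Agent.Results.MP_f7abf1_nt.FewDigits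

open Finset

/-- The `3x+1` function, on the integers. -/
def T (x : ℤ) : ℤ := if x % 2 = 0 then x / 2 else (3 * x + 1) / 2

/-- `k` is the total stopping time of `n`: the least `k ≥ 0` with `T^(k)(n) = 1` (so it is finite). -/
def IsStoppingTime (n k : ℕ) : Prop := IsLeast {j : ℕ | T^[j] (n : ℤ) = 1} k

/-- `x` is a sum of at most `k` numbers `c u`, `c ∈ C`, `u ∈ Γ`. -/
def IsSum (Γ : Subgroup ℚˣ) (C : Finset ℚ) (k : ℕ) (x : ℚ) : Prop :=
  ∃ l : ℕ, l ≤ k ∧ ∃ (c : Fin l → ℚ) (u : Fin l → ℚˣ), (∀ i, c i ∈ C ∧ u i ∈ Γ) ∧ x = ∑ i, c i * (u i : ℚ)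

/-- The group generated by the elements of `S`. -/
def Gen (S : Finset ℕ) : Subgroup ℚˣ := Subgroup.closure {u : ℚˣ | ∃ p ∈ S, (u : ℚ) = p}

/-- The number of blocks of equal digits in the expansion of `n` in base `b`, that is, the number of the `i` for
which the digits of `n` at `b ^ i` and at `b ^ (i + 1)` are different. -/
def blocks (b n : ℕ) : ℕ := ((range n).filter fun i => n / b ^ i % b ≠ n / b ^ (i + 1) % b).card

/-- The first `n` terms of the trajectory of `x` are different. -/
def Different (x : ℤ) (n : ℕ) : Prop := ∀ i < n, ∀ j < n, T^[i] x = T^[j] x → i = j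

/-- The number of the `t < n` with `P (T^t x)`. -/
noncomputable def count (P : ℤ → Prop) (x : ℤ) (n : ℕ) : ℝ := {t : ℕ | t < n ∧ P (T^[t] x)}.ncard

/-- The property `P` is rare among the terms with the property `A`. -/
def Rare (A P : ℤ → Prop) : Prop := ∀ ε : ℝ, 0 < ε → ∃ K : ℝ, ∀ (x : ℤ) (n : ℕ), Different x n →
  count (fun y => A y ∧ P y) x n ≤ ε * count A x n + K

/-- `f n s ≤ (a + o(1)) log n` for the `n` with finite total stopping time `s`. -/
def UpperBound (f : ℕ → ℕ → ℝ) (a : ℝ) : Prop := ∀ δ : ℝ, 0 < δ → ∃ N : ℕ, ∀ n s : ℕ, N ≤ n →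
  IsStoppingTime n s → f n s ≤ (a + δ) * Real.log n

lemma T_eq : T = Pool.Agent.V5helper5.SQ.T := rfl

lemma sp_of {Γ : Subgroup ℚˣ} {C : Finset ℚ} {k : ℕ} {x : ℚ} (h : IsSum Γ C k x) :
    Pool.Agent.N449.SP.Sp (Pool.Agent.V5helper76.FD.UU Γ C) k x := by
  obtain ⟨l, hl, c, u, h1, rfl⟩ := h
  refine Pool.Agent.V5helper76.FD.sp_mono hl ⟨fun i => c i * (u i : ℚ), fun i => Or.inr ?_, rfl⟩
  exact ⟨c i, (h1 i).1, u i, (h1 i).2, rfl⟩

lemma diff_inj {x : ℤ} {n : ℕ} (h : Different x n) :
    Set.InjOn (fun t => Pool.Agent.V5helper5.SQ.T^[t] x) (Set.Iio n) :=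
  fun i hi j hj hij => h i hi j hj hij

lemma count_eq {P : ℤ → Prop} {x : ℤ} {n : ℕ} (S : Finset ℕ) (h : ∀ t, t ∈ S ↔ t < n ∧ P (T^[t] x)) :
    count P x n = S.card := by
  unfold count
  have : {t : ℕ | t < n ∧ P (T^[t] x)} = (S : Set ℕ) := by
    ext t
    exact (h t).symm
  rw [this, Set.ncard_coe_finset]

lemma count_odd (x : ℤ) (n : ℕ) : count (fun y => y % 2 = 1) x n = Pool.Agent.V5helper5.SQ.od n x := by
  rw [← Pool.Agent.V5helper76.FD.card_B]
  apply count_eq
  intro t
  rw [Pool.Agent.V5helper76.FD.B, mem_filter, mem_range, T_eq]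
  constructor
  · rintro ⟨h1, h2⟩; exact ⟨h1, by omega⟩
  · rintro ⟨h1, h2⟩; exact ⟨h1, by omega⟩

lemma count_all (x : ℤ) (n : ℕ) : count (fun _ => True) x n = n := by
  rw [count_eq (range n) (fun t => by simp), card_range]

lemma rare_all {P : ℤ → Prop} (h : ∀ ε > 0, ∃ K : ℝ, ∀ (x : ℤ) (n : ℕ),
    Set.InjOn (fun t => Pool.Agent.V5helper5.SQ.T^[t] x) (Set.Iio n) → ∀ S ⊆ range n,
      (∀ t ∈ S, P (Pool.Agent.V5helper5.SQ.T^[t] x)) → (S.card : ℝ) ≤ ε * n + K) : Rare (fun _ => True) P := by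
  classical
  intro ε hε
  obtain ⟨K, hK⟩ := h ε hε
  refine ⟨K, fun x n hd => ?_⟩
  rw [count_all, count_eq ((range n).filter fun t => P (T^[t] x)) (fun t => by simp)]
  refine hK x n (diff_inj hd) _ (Finset.filter_subset _ _) ?_
  intro t ht
  exact (mem_filter.1 ht).2

lemma rare_odd {P : ℤ → Prop} (h : ∀ ε > 0, ∃ K : ℝ, ∀ (x : ℤ) (n : ℕ),
    Set.InjOn (fun t => Pool.Agent.V5helper5.SQ.T^[t] x) (Set.Iio n) → ∀ S ⊆ range n,
      (∀ t ∈ S, Pool.Agent.V5helper5.SQ.T^[t] x % 2 ≠ 0 ∧ P (Pool.Agent.V5helper5.SQ.T^[t] x)) →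
      (S.card : ℝ) ≤ ε * Pool.Agent.V5helper5.SQ.od n x + K) : Rare (fun y => y % 2 = 1) P := by
  classical
  intro ε hε
  obtain ⟨K, hK⟩ := h ε hε
  refine ⟨K, fun x n hd => ?_⟩
  rw [count_odd, count_eq ((range n).filter fun t => T^[t] x % 2 = 1 ∧ P (T^[t] x)) (fun t => by simp)]
  refine hK x n (diff_inj hd) _ (Finset.filter_subset _ _) ?_
  intro t ht
  have h1 := (mem_filter.1 ht).2
  refine ⟨?_, h1.2⟩
  have h2 : Pool.Agent.V5helper5.SQ.T^[t] x % 2 = 1 := h1.1
  omega

lemma different_of {n s : ℕ} (h : IsStoppingTime n s) : Different n s := by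
  have key : ∀ i j : ℕ, i < j → j < s → T^[i] (n : ℤ) ≠ T^[j] (n : ℤ) := by
    intro i j hij hj he
    have h1 : T^[s] (n : ℤ) = 1 := h.1
    have h2 : T^[s - j + i] (n : ℤ) = 1 := by
      rw [Function.iterate_add_apply, he, ← Function.iterate_add_apply, show s - j + j = s by omega]
      exact h1
    have h3 : s ≤ s - j + i := h.2 h2
    omega
  intro i hi j hj he
  rcases lt_trichotomy i j with h1 | h1 | h1
  · exact absurd he (key i j h1 hj)
  · exact h1
  · exact absurd he.symm (key j i h1 hi)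

lemma count_split (A P : ℤ → Prop) (x : ℤ) (n : ℕ) :
    count A x n = count (fun y => A y ∧ P y) x n + count (fun y => A y ∧ ¬ P y) x n := by
  classical
  rw [count_eq (P := A) ((range n).filter fun t => A (T^[t] x)) (fun t => by simp),
    count_eq (((range n).filter fun t => A (T^[t] x)).filter fun t => P (T^[t] x))
      (fun t => by simp only [mem_filter, mem_range]; tauto),
    count_eq (((range n).filter fun t => A (T^[t] x)).filter fun t => ¬ P (T^[t] x))
      (fun t => by simp only [mem_filter, mem_range]; tauto), ← Nat.cast_add,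
    Finset.card_filter_add_card_filter_not]

lemma count_nonneg (A : ℤ → Prop) (x : ℤ) (n : ℕ) : 0 ≤ count A x n := by
  unfold count; positivity

lemma count_full {P : ℤ → Prop} {x : ℤ} {n : ℕ} (h : ∀ t < n, P (T^[t] x)) : count P x n = n := by
  rw [count_eq (range n) (fun t => ?_), card_range]
  rw [mem_range]
  exact ⟨fun ht => ⟨ht, h t ht⟩, fun ht => ht.1⟩

/-- powers of `2` in a base which is a power of `2` -/
lemma blocks_two (a m : ℕ) (ha : 1 ≤ a) : blocks (2 ^ a) (2 ^ m) ≤ 2 := by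
  have hdig : ∀ i : ℕ, i ≠ m / a → 2 ^ m / (2 ^ a) ^ i % 2 ^ a = 0 := by
    intro i hi
    rw [← pow_mul]
    rcases Nat.lt_or_ge i (m / a) with h | h
    · have h1 : a * (i + 1) ≤ m := by
        calc a * (i + 1) ≤ a * (m / a) := Nat.mul_le_mul_left _ h
          _ ≤ m := Nat.mul_div_le m a
      have h2 : a * i + a ≤ m := by rw [← Nat.mul_succ]; exact h1
      rw [Nat.pow_div (by omega) (by norm_num)]
      exact Nat.mod_eq_zero_of_dvd (pow_dvd_pow 2 (by omega))
    · have h1 : m / a + 1 ≤ i := by omega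
      have h2 : m < a * i := by
        calc m < a * (m / a + 1) := Nat.lt_mul_div_succ m ha
          _ ≤ a * i := Nat.mul_le_mul_left _ h1
      rw [Nat.div_eq_of_lt (Nat.pow_lt_pow_right (by norm_num) h2), Nat.zero_mod]
  unfold blocks
  refine (Finset.card_le_card (t := {m / a - 1, m / a}) ?_).trans Finset.card_le_two
  intro i hi
  rw [mem_filter] at hi
  rw [mem_insert, mem_singleton]
  by_contra hcc
  push Not at hcc
  apply hi.2
  rw [hdig i hcc.2]
  by_cases h1 : i + 1 = m / a
  · exact absurd (by omega : i = m / a - 1) hcc.1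
  · rw [hdig (i + 1) h1]

/-- **Main theorem.** (1) Let `Γ` be a finitely generated group of nonzero rational numbers, `C` a finite set of
rational numbers. The sums of at most `k` elements of `C Γ` are rare in the trajectories of the `3x+1` map on the
integers if `Γ` contains no `2 ^ i / 3 ^ j` with `j ≤ i`, `i ≥ 1`, and rare among the odd terms if `Γ` contains
no `2 ^ i / 3 ^ j` with `1 ≤ j ≤ i`.

(2) For the group generated by a finite set `S` of primes, `C = {1, -1}` and `k ≥ 2` these sums are rare iff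
`2 ∉ S`, and rare among the odd terms iff `S` does not contain both `2` and `3`.

(3) The integers whose absolute value has at most `k` blocks of digits in base `b` are rare among the odd terms,
for every `b ≥ 2`, and, for `k ≥ 2`, rare among all terms iff `b` is not a power of `2`.

(4) If `b` is not a power of `2` then for all large `n` with a finite total stopping time `s` more than
`(1 - ε) s` of the first `s` terms have more than `k` blocks of digits in base `b`.

(5) Let `γ` be real. The total stopping time has the upper bound `(γ + o(1)) log n` (over the `n` for which it is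
finite) iff the number of the terms before `1` with more than `k` blocks of digits in base `b` has it, `b` not a
power of `2`; and iff the number of the odd terms before `1` with more than `k` blocks of digits in base `b`
has the upper bound `((γ log 2 - 1) / log 3 + o(1)) log n`, where `b ≥ 2` is arbitrary. -/
theorem result :
    (∀ (Γ : Subgroup ℚˣ) (C : Finset ℚ) (k : ℕ), Γ.FG →
      ((∀ i j : ℕ, j ≤ i → 1 ≤ i → ∀ u ∈ Γ, (u : ℚ) ≠ 2 ^ i / 3 ^ j) →
        Rare (fun _ => True) (fun y => IsSum Γ C k y)) ∧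
      ((∀ i j : ℕ, 1 ≤ j → j ≤ i → ∀ u ∈ Γ, (u : ℚ) ≠ 2 ^ i / 3 ^ j) →
        Rare (fun y => y % 2 = 1) (fun y => IsSum Γ C k y))) ∧
    (∀ (S : Finset ℕ) (k : ℕ), (∀ p ∈ S, p.Prime) → 2 ≤ k →
      (Rare (fun _ => True) (fun y => IsSum (Gen S) {1, -1} k y) ↔ 2 ∉ S) ∧
      (Rare (fun y => y % 2 = 1) (fun y => IsSum (Gen S) {1, -1} k y) ↔ ¬ (2 ∈ S ∧ 3 ∈ S))) ∧
    (∀ b k : ℕ, 2 ≤ b →
      Rare (fun y => y % 2 = 1) (fun y => blocks b y.natAbs ≤ k) ∧
      (2 ≤ k → (Rare (fun _ => True) (fun y => blocks b y.natAbs ≤ k) ↔ ∀ a : ℕ, b ≠ 2 ^ a))) ∧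
    (∀ b k : ℕ, 2 ≤ b → (∀ a : ℕ, b ≠ 2 ^ a) → ∀ ε : ℝ, 0 < ε → ∃ N : ℕ, ∀ n s : ℕ, N ≤ n →
      IsStoppingTime n s → (1 - ε) * s < count (fun y => k < blocks b y.natAbs) n s) ∧
    (∀ (b k : ℕ) (γ : ℝ), 2 ≤ b →
      ((∀ a : ℕ, b ≠ 2 ^ a) → (UpperBound (fun _ s => s) γ ↔
        UpperBound (fun n s => count (fun y => k < blocks b y.natAbs) n s) γ)) ∧
      (UpperBound (fun _ s => s) γ ↔
        UpperBound (fun n s => count (fun y => y % 2 = 1 ∧ k < blocks b y.natAbs) n s)
          ((γ * Real.log 2 - 1) / Real.log 3))) := by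
  classical
  have conv : ∀ {Γ : Subgroup ℚˣ} {i j : ℕ}, (∀ u ∈ Γ, (u : ℚ) ≠ 2 ^ i / 3 ^ j) →
      ∀ u ∈ Γ, (u : ℚ) * 3 ^ j ≠ 2 ^ i := by
    intro Γ i j h u hu he
    exact h u hu (by rw [eq_div_iff (by positivity)]; exact he)
  have conv' : ∀ {Γ : Subgroup ℚˣ} {i j : ℕ}, (∀ u ∈ Γ, (u : ℚ) * 3 ^ j ≠ 2 ^ i) →
      ∀ u ∈ Γ, (u : ℚ) ≠ 2 ^ i / 3 ^ j := by
    intro Γ i j h u hu he
    exact h u hu (by rw [he]; field_simp)
  have h1 : ∀ (Γ : Subgroup ℚˣ) (C : Finset ℚ) (k : ℕ), Γ.FG →
      ((∀ i j : ℕ, j ≤ i → 1 ≤ i → ∀ u ∈ Γ, (u : ℚ) ≠ 2 ^ i / 3 ^ j) →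
        Rare (fun _ => True) (fun y => IsSum Γ C k y)) ∧
      ((∀ i j : ℕ, 1 ≤ j → j ≤ i → ∀ u ∈ Γ, (u : ℚ) ≠ 2 ^ i / 3 ^ j) →
        Rare (fun y => y % 2 = 1) (fun y => IsSum Γ C k y)) := by
    intro Γ C k hΓ
    refine ⟨fun h => rare_all fun ε hε => ?_, fun h => rare_odd fun ε hε => ?_⟩
    · obtain ⟨K, hK⟩ := Pool.Agent.V5helper76.FD.countA hΓ C k (fun i j h1 h2 => conv (h i j h1 h2)) hε
      exact ⟨K, fun x n hd S hS hP => hK x n hd S hS fun t ht => sp_of (hP t ht)⟩
    · obtain ⟨K, hK⟩ := Pool.Agent.V5helper76.FD.countB hΓ C k (fun i j h1 h2 => conv (h i j h1 h2)) hε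
      exact ⟨K, fun x n hd S hS hP => hK x n hd S hS fun t ht => ⟨(hP t ht).1, sp_of (hP t ht).2⟩⟩
  have gfg : ∀ S : Finset ℕ, (Gen S).FG := Pool.Agent.V5helper76.FD.GS_fg
  -- the powers of two
  have hpow : ∀ {P : ℤ → Prop}, (∀ m : ℕ, P (2 ^ m)) → ¬ Rare (fun _ => True) P := by
    intro P hP hR
    obtain ⟨K, hK⟩ := hR (1 / 2) (by norm_num)
    obtain ⟨n, hn⟩ := exists_nat_gt (2 * K)
    have hit : ∀ t ≤ n, T^[t] ((2 : ℤ) ^ n) = 2 ^ (n - t) := Pool.Agent.V5helper76.FD.iter_two_pow n
    have h2 := hK (2 ^ n) n (by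
      intro i hi j hj hij
      rw [hit i hi.le, hit j hj.le] at hij
      have h5 : 2 ^ (n - i) = 2 ^ (n - j) := by exact_mod_cast hij
      have := Nat.pow_right_injective (le_refl 2) h5
      have hi' : i < n := hi
      omega)
    rw [count_all] at h2
    have h3 : count (fun y => True ∧ P y) (2 ^ n) n = n :=
      count_full fun t ht => by rw [hit t ht.le]; exact ⟨trivial, hP _⟩
    rw [h3] at h2
    linarith
  have h2 : ∀ (S : Finset ℕ) (k : ℕ), (∀ p ∈ S, p.Prime) → 2 ≤ k →
      (Rare (fun _ => True) (fun y => IsSum (Gen S) {1, -1} k y) ↔ 2 ∉ S) ∧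
      (Rare (fun y => y % 2 = 1) (fun y => IsSum (Gen S) {1, -1} k y) ↔ ¬ (2 ∈ S ∧ 3 ∈ S)) := by
    intro S k hS hk
    refine ⟨⟨fun hR h2S => ?_, fun h2S => ?_⟩, ⟨fun hR h23 => ?_, fun h23 => ?_⟩⟩
    · refine hpow (fun m => ?_) hR
      refine ⟨1, by omega, fun _ => 1, fun _ => (Units.mk0 (2 : ℚ) (by norm_num)) ^ m, fun _ => ⟨by simp, ?_⟩, ?_⟩
      · exact pow_mem (Pool.Agent.V5helper76.FD.gs_mem h2S (by simp)) m
      · simp
    · exact ((h1 (Gen S) {1, -1} k (gfg S)).1 fun i j h3 h4 => conv' (Pool.Agent.V5helper76.FD.GS_all hS h2S i j h3 h4))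
    · obtain ⟨K, hK⟩ := hR (1 / 2) (by norm_num)
      obtain ⟨n, hn⟩ := exists_nat_gt (2 * K)
      have hit : ∀ t ≤ n, T^[t] ((2 : ℤ) ^ n - 1) = 3 ^ t * 2 ^ (n - t) - 1 :=
        Pool.Agent.V5helper76.FD.iter_two_pow_sub n
      have hval : ∀ t ≤ n, (3 : ℤ) ^ t * 2 ^ (n - t) * 2 ^ t = 3 ^ t * 2 ^ n := by
        intro t ht
        rw [mul_assoc, ← pow_add, show n - t + t = n by omega]
      have h2 := hK (2 ^ n - 1) n (by
        have key : ∀ i j : ℕ, i < j → j < n → T^[i] ((2 : ℤ) ^ n - 1) ≠ T^[j] ((2 : ℤ) ^ n - 1) := by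
          intro i j hij hj he
          rw [hit i (by omega), hit j (by omega)] at he
          have e1 : (3 : ℤ) ^ i * 2 ^ (n - i) = 3 ^ j * 2 ^ (n - j) := by linarith
          have e2 : (2 : ℤ) ^ (n - i) = 2 ^ (n - j) * 2 ^ (j - i) := by rw [← pow_add]; congr 1; omega
          have e3 : (3 : ℤ) ^ j = 3 ^ i * 3 ^ (j - i) := by rw [← pow_add]; congr 1; omega
          rw [e2, e3] at e1
          have e4 : (3 : ℤ) ^ i * 2 ^ (n - j) ≠ 0 := by positivity
          have e5 : (2 : ℤ) ^ (j - i) = 3 ^ (j - i) := by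
            apply mul_left_cancel₀ e4
            linear_combination e1
          have e6 : (2 : ℤ) ^ (j - i) < 3 ^ (j - i) := pow_lt_pow_left₀ (by norm_num) (by norm_num) (by omega)
          omega
        intro i hi j hj he
        rcases lt_trichotomy i j with h1 | h1 | h1
        · exact absurd he (key i j h1 hj)
        · exact h1
        · exact absurd he.symm (key j i h1 hi))
      have hodd : ∀ t < n, T^[t] ((2 : ℤ) ^ n - 1) % 2 = 1 := by
        intro t ht
        rw [hit t ht.le, show n - t = (n - t - 1) + 1 by omega, pow_succ, ← mul_assoc]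
        omega
      have h3 : count (fun y => y % 2 = 1) (2 ^ n - 1) n = n := count_full hodd
      have h4 : count (fun y => y % 2 = 1 ∧ IsSum (Gen S) {1, -1} k y) (2 ^ n - 1) n = n := by
        refine count_full fun t ht => ?_
        refine ⟨hodd t ht, 2, hk, ![1, -1], ![(Units.mk0 (3 : ℚ) (by norm_num)) ^ t *
          (Units.mk0 (2 : ℚ) (by norm_num)) ^ (n - t), 1], ?_, ?_⟩
        · intro i
          fin_cases i
          · refine ⟨by simp, ?_⟩
            exact mul_mem (pow_mem (Pool.Agent.V5helper76.FD.gs_mem h23.2 (by simp)) t)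
              (pow_mem (Pool.Agent.V5helper76.FD.gs_mem h23.1 (by simp)) _)
          · exact ⟨by simp, one_mem _⟩
        · rw [hit t ht.le, Fin.sum_univ_two]
          simp
          ring
      rw [h3, h4] at h2
      linarith
    · exact ((h1 (Gen S) {1, -1} k (gfg S)).2 fun i j h3 h4 => conv' (Pool.Agent.V5helper76.FD.GS_odd hS h23 i j h3 h4))
  have bl : ∀ (b k : ℕ) (hb : 2 ≤ b) (y : ℤ), blocks b y.natAbs ≤ k →
      Pool.Agent.N449.SP.Sp (Pool.Agent.V5helper76.FD.UU (Subgroup.zpowers (Units.mk0 (b : ℚ) (by positivity)))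
        (Pool.Agent.V5helper76.FD.Cb b)) (k + 1) (y : ℚ) := by
    intro b k hb y hy
    refine Pool.Agent.V5helper76.FD.sp_mono ?_ (Pool.Agent.V5helper76.FD.sp_blocks_int hb _ rfl y)
    exact Nat.succ_le_succ hy
  have zfg : ∀ u : ℚˣ, (Subgroup.zpowers u).FG := fun u =>
    ⟨{u}, by rw [Finset.coe_singleton, ← Subgroup.zpowers_eq_closure]⟩
  have rodd : ∀ b k : ℕ, 2 ≤ b → Rare (fun y => y % 2 = 1) (fun y => blocks b y.natAbs ≤ k) := by
    intro b k hb
    refine rare_odd fun ε hε => ?_
    obtain ⟨K, hK⟩ := Pool.Agent.V5helper76.FD.countB (zfg (Units.mk0 (b : ℚ) (by positivity)))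
      (Pool.Agent.V5helper76.FD.Cb b) (k + 1) (Pool.Agent.V5helper76.FD.zp_odd hb _ rfl) hε
    exact ⟨K, fun x n hd S hS hP => hK x n hd S hS fun t ht => ⟨(hP t ht).1, bl b k hb _ (hP t ht).2⟩⟩
  have rall : ∀ b k : ℕ, 2 ≤ b → (∀ a : ℕ, b ≠ 2 ^ a) →
      Rare (fun _ => True) (fun y => blocks b y.natAbs ≤ k) := by
    intro b k hb hpw
    refine rare_all fun ε hε => ?_
    obtain ⟨K, hK⟩ := Pool.Agent.V5helper76.FD.countA (zfg (Units.mk0 (b : ℚ) (by positivity)))
      (Pool.Agent.V5helper76.FD.Cb b) (k + 1) (Pool.Agent.V5helper76.FD.zp_all hb hpw _ rfl) hε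
    exact ⟨K, fun x n hd S hS hP => hK x n hd S hS fun t ht => bl b k hb _ (hP t ht)⟩
  -- the terms with more than `k` blocks
  have split : ∀ (A : ℤ → Prop) (b k : ℕ), Rare A (fun y => blocks b y.natAbs ≤ k) → ∀ ε > 0, ∃ K : ℝ, ∀ n s : ℕ,
      IsStoppingTime n s → count A n s ≤ count (fun y => A y ∧ k < blocks b y.natAbs) n s + ε * count A n s + K := by
    intro A b k h ε hε
    obtain ⟨K, hK⟩ := h ε hε
    refine ⟨K, fun n s hs => ?_⟩
    have h3 := hK n s (different_of hs)
    have h4 := count_split A (fun y => blocks b y.natAbs ≤ k) n s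
    simp only [not_le] at h4
    linarith
  have hlog : ∀ {n s : ℕ}, 0 < n → IsStoppingTime n s → Real.log n ≤ s := by
    intro n s hn hs
    have h3 := (Pool.Agent.V5helper76.FD.time_odd hn hs.1 (diff_inj (different_of hs))).1
    have h4 : (0 : ℝ) ≤ Pool.Agent.V5helper5.SQ.od s n * Real.log 3 := by positivity
    have h5 := Real.log_two_lt_d9
    have h6 : (s : ℝ) * Real.log 2 ≤ s * 1 := by gcongr; linarith
    linarith
  refine ⟨h1, h2, fun b k hb => ⟨rodd b k hb, fun hk => ⟨fun hR a hab => ?_, rall b k hb⟩⟩, ?_, ?_⟩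
  · refine hpow (fun m => ?_) hR
    have ha : 1 ≤ a := by
      rcases Nat.eq_zero_or_pos a with h | h
      · rw [h] at hab; omega
      · exact h
    rw [Int.natAbs_pow, hab]
    exact (blocks_two a m ha).trans hk
  · intro b k hb hpw ε hε
    obtain ⟨K, hK⟩ := split (fun _ => True) b k (rall b k hb hpw) (ε / 2) (by positivity)
    obtain ⟨N, hN⟩ := Pool.Agent.V5helper76.FD.log_large (2 * (|K| + 1) / ε)
    refine ⟨N + 1, fun n s hn hs => ?_⟩
    have h3 := hK n s hs
    have h4 := (hN n (by omega)).trans (hlog (by omega) hs)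
    rw [div_le_iff₀ hε] at h4
    simp only [true_and] at h3
    rw [count_all] at h3
    have h5 := le_abs_self K
    linarith
  · intro b k γ hb
    have hodd : UpperBound (fun _ s => s) γ ↔
        UpperBound (fun n s => count (fun y => y % 2 = 1) n s) ((γ * Real.log 2 - 1) / Real.log 3) := by
      refine Pool.Agent.V5helper76.FD.up_odd (Q := IsStoppingTime)
        (o := fun n s => count (fun y => y % 2 = 1) n s) (fun n s hs hn => ?_) γ
      rw [count_odd]
      exact Pool.Agent.V5helper76.FD.time_odd (by omega) hs.1 (diff_inj (different_of hs))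
    refine ⟨fun hpw => ?_, hodd.trans ?_⟩
    · refine Pool.Agent.V5helper76.FD.up_iff (Q := IsStoppingTime) (o := fun _ s => (s : ℝ))
        (c := fun n s => count (fun y => k < blocks b y.natAbs) n s) (fun n s => count_nonneg _ _ _)
        (fun n s => ?_) (fun ε hε => ?_) γ
      · have h3 := count_split (fun _ => True) (fun y => k < blocks b y.natAbs) n s
        have h4 := count_nonneg (fun y : ℤ => True ∧ ¬ k < blocks b y.natAbs) n s
        rw [count_all] at h3
        simp only [true_and] at h3 h4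
        linarith
      · obtain ⟨K, hK⟩ := split (fun _ => True) b k (rall b k hb hpw) ε hε
        refine ⟨K, fun n s hs => ?_⟩
        have h3 := hK n s hs
        simp only [true_and] at h3
        rw [count_all] at h3
        exact h3
    · refine Pool.Agent.V5helper76.FD.up_iff (Q := IsStoppingTime)
        (o := fun n s => count (fun y => y % 2 = 1) n s)
        (c := fun n s => count (fun y => y % 2 = 1 ∧ k < blocks b y.natAbs) n s)
        (fun n s => count_nonneg _ _ _)
        (fun n s => ?_) (fun ε hε => ?_) _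
      · have h3 := count_split (fun y : ℤ => y % 2 = 1) (fun y => k < blocks b y.natAbs) n s
        have h4 := count_nonneg (fun y : ℤ => y % 2 = 1 ∧ ¬ k < blocks b y.natAbs) n s
        linarith
      · exact split (fun y => y % 2 = 1) b k (rodd b k hb) ε hε

end Pool.Agent.Results.MP_f7abf1_nt.FewDigits
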