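import Mathlib
import Pool.Agent.V5helper2.FC.Nat

set_option autoImplicit false

/-!
# The scaled total stopping time is bounded on the numbers with boundedly many parity changes

Write the different numbers among the first `H` terms of the trajectory of `n` under `T` in increasing order and
let `A` be the number of the places where two neighbours have different parity. Dyadic intervals which are not
close to a change contain terms of one parity only, so that the trajectory passes through them at most once. Hence
the time is divided into at most `O(A)` intervals in which the parity is constant or the terms stay within a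
bounded ratio. In an interval of the second kind two neighbours of the sorted list have the same first `N`
parities unless some iterate `i < N` separates them at a change, and for given `i` and change the pair is known up
to `O(i)` possibilities, and up to two if the neighbours are far apart; pairs at distance `O(N)` are separated for
some `i = O(log N)`. So the parity word of the trajectory has at most `C N` different blocks of `N` letters for
all `N`, with `C` depending on `A` only, and by the starting theorem on trajectories of linear complexity (a
consequence of the subspace theorem) it enters in logarithmic time one of finitely many cycles.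
-/

namespace Pool.Agent.Results.MP_f7abf1_nt.FewParityChanges

open Finset

/-- the `3x+1` function -/
def T (n : ℕ) : ℕ := if n % 2 = 0 then n / 2 else (3 * n + 1) / 2

/-- `s` is the total stopping time of `n`: the least `s ≥ 0` with `T^(s)(n) = 1` (so it is finite) -/
def IsTotalTime (n s : ℕ) : Prop := T^[s] n = 1 ∧ ∀ j, j < s → T^[j] n ≠ 1

/-- the set of the first `H` terms `n, T(n), ..., T^(H-1)(n)` of the trajectory of `n` -/
def first (n H : ℕ) : Finset ℕ := (range H).image fun j => T^[j] n

/-- The number of the parity changes in `S`: the number of the pairs of elements of `S` which are neighbours in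
the increasing order of `S` and have different parity. -/
def changes (S : Finset ℕ) : ℕ :=
  ((S ×ˢ S).filter fun p =>
    p.1 < p.2 ∧ (∀ z ∈ S, ¬ (p.1 < z ∧ z < p.2)) ∧ p.1 % 2 ≠ p.2 % 2).card

/-- For every `A` there is `K` such that (1) `s ≤ K log n` for all `n ≥ 2` with a finite total stopping time `s`
for which the set `n, T(n), ..., T^(s)(n) = 1` has at most `A` parity changes; (2) for every `n ≥ 2`
for which the set of the first `K log n` terms has at most `A` parity changes there is `i ≤ K log n`
such that `T^(i)(n)` lies in a cycle with at most `K` elements, all of them at most `K`. -/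
theorem result (A : ℕ) : ∃ K : ℕ,
    (∀ n s : ℕ, 2 ≤ n → IsTotalTime n s → changes (first n (s + 1)) ≤ A → (s : ℝ) ≤ K * Real.log n) ∧
    (∀ n : ℕ, 2 ≤ n → changes (first n ⌊(K : ℝ) * Real.log n⌋₊) ≤ A →
      ∃ i : ℕ, (i : ℝ) ≤ K * Real.log n ∧ (∃ k, 1 ≤ k ∧ k ≤ K ∧ T^[k] (T^[i] n) = T^[i] n) ∧
        ∀ j, T^[j] (T^[i] n) ≤ K) := by
  obtain ⟨K1, h1⟩ := Pool.Agent.V5helper2.FC.time_le_log A
  obtain ⟨K2, -, h2⟩ := Pool.Agent.V5helper2.FC.nat_log A
  have h1K : (K1 : ℝ) ≤ (max K1 K2 : ℕ) := by exact_mod_cast le_max_left K1 K2
  have h2K : (K2 : ℝ) ≤ (max K1 K2 : ℕ) := by exact_mod_cast le_max_right K1 K2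
  refine ⟨max K1 K2, fun n s hn hs hA => ?_, fun n hn hA => ?_⟩
  · have hlog : 0 ≤ Real.log n := Real.log_natCast_nonneg n
    exact (h1 n s hn hs.1 hs.2 hA).trans (mul_le_mul_of_nonneg_right h1K hlog)
  · have hlog : 0 ≤ Real.log n := Real.log_natCast_nonneg n
    obtain ⟨i, hi, ⟨k, hk1, hk2, hk3⟩, hb⟩ := h2 (max K1 K2) (le_max_right _ _) n hn hA
    exact ⟨i, hi.trans (mul_le_mul_of_nonneg_right h2K hlog),
      ⟨k, hk1, hk2.trans (le_max_right _ _), hk3⟩, fun j => (hb j).trans (le_max_right _ _)⟩

end Pool.Agent.Results.MP_f7abf1_nt.FewParityChanges
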