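import Mathlib
import Pool.Agent.V5helper5.CO.Nat

/-!
# Scaled stopping times and squarefree parts

Let `Q(n)` be the number of different squarefree parts of the odd terms of the trajectory of `n` (before `1`).
Then `σ_∞(n) ≤ (1 + ε) log₂ n + C_ε (1 + Q(n)) ^ (3 + ε)`; for cubefree parts, and for the `m`-th power free parts
for all `m ≥ 3` simultaneously, the exponent is `2 + ε`. The trivial lower bound is `σ_∞(n) ≥ log₂ n`. So along the
numbers `n` whose odd terms have at most `(log n) ^ c` squarefree parts, `c < 1 / 3`, the scaled stopping times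
`σ_∞(n) / log n` converge to `1 / log 2`: a scaled stopping time larger than `1 / log 2 + ε` (such as those near
the conjectured constant `41.67`) forces many squarefree parts.

Method: a window of `w = δ log L` steps of a trajectory with `L` different terms. If three terms `x, T^i x, T^j x`
(`0 < i < j ≤ w`) are of the form `k + s a ^ m`, `(k, s)` in a given set of pairs, then `a` solves simultaneously two
equations `A b ^ m - B a ^ m = e`, `A' c ^ m - B' a ^ m = e'` whose coefficients are determined by `x` modulo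
`2 ^ w` and by the three pairs; `e` and `e'` are small and independent of the size of the multipliers. For
`m ≥ 3` one such equation, for `m = 2` the pair of equations has the gap principle `a₁ a₂ ≤ E a₃` for any
three solutions `a₁ < a₂ < a₃`, hence only `O(log log a)` solutions up to `a`. The number of the classes is a
power of `L` less than one. On the other hand the odd terms are a positive proportion of the first `L` terms
when `L ≥ (1 + ε) log₂ n`.
-/

set_option autoImplicit false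

namespace Pool.Agent.Results.MP_f7abf1_nt.SquarefreeParts

open Finset

/-- The `3x+1` function. -/
def T (n : ℕ) : ℕ := if n % 2 = 0 then n / 2 else (3 * n + 1) / 2

/-- `k = σ_∞(n)` is the total stopping time of `n`. -/
def IsTotalStoppingTime (n k : ℕ) : Prop := T^[k] n = 1 ∧ ∀ j < k, T^[j] n ≠ 1

/-- All odd ones among the first `L` terms of the trajectory of `n` are of the form `s a ^ m` with `s ∈ Q`. For
`m = 2` this holds if `Q` is the set of the squarefree parts of these terms. -/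
def Covers (n L m : ℕ) (Q : Finset ℕ) : Prop :=
  ∀ j < L, T^[j] n % 2 = 1 → ∃ s ∈ Q, ∃ a : ℕ, T^[j] n = s * a ^ m

/-- The map `T` on the integers. -/
def Tz (x : ℤ) : ℤ := if x % 2 = 0 then x / 2 else (3 * x + 1) / 2

/-- `y = k + s a ^ m` for an integer `a` and a pair `(k, s)` in `P` with `s ≠ 0`, and `2 ^ i` does not divide
`y - k` when `i ≥ 1` and `T^i k` is also the first coordinate of a pair in `P`. (The last condition holds if
`y - k` is odd, and if no forward iterate `T^i k`, `i ≥ 1`, is a first coordinate.) -/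
def Special (P : Finset (ℤ × ℤ)) (m : ℕ) (y : ℤ) : Prop :=
  ∃ k s a : ℤ, (k, s) ∈ P ∧ s ≠ 0 ∧ y = k + s * a ^ m ∧
    ∀ i : ℕ, 1 ≤ i → (∃ s' : ℤ, (Tz^[i] k, s') ∈ P) → ¬ (2 : ℤ) ^ i ∣ y - k

lemma admissible {r m₀ m : ℕ} (h : (m₀ = 2 ∧ r = 3) ∨ (m₀ = 3 ∧ r = 2)) (hm : m₀ ≤ m) :
    (r = 2 ∨ r = 3) ∧ 5 ≤ m + r ∧ 2 ≤ m := by omega

/-- **Main theorem.** Let `r = 3` for the exponents `m ≥ m₀ = 2`, or `r = 2` for the exponents
`m ≥ m₀ = 3`.

(1) For every `ε > 0` there is `C` such that for all `n ≥ 1` and all `L` for which the first `L` terms of the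
trajectory of `n` are different, and all `m ≥ m₀`: if the odd ones of these terms are of the form `s a ^ m`,
`s ∈ Q`, then `L ≤ (1 + ε) log₂ n + C (1 + |Q|) ^ (r + ε)`. In particular this holds for `L = σ_∞(n)` if this
is finite.

(2) Let `r c < 1`. For every `ε > 0` and all large `n` with `σ_∞(n) < ∞`: if for some `m ≥ m₀` and some set `Q`
of at most `(log n) ^ c` integers all odd terms before `1` are of the form `s a ^ m`, `s ∈ Q`, then
`|σ_∞(n) / log n - 1 / log 2| ≤ ε`.

(3) Let `c, δ ≥ 0`, `r c < 1`, `c + (r - 1) δ < 1`. There is `C` such that for all `n ≥ 1`, `L ≥ max (2, log₂ n)`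
for which the first `L` terms of the trajectory of `n` are different, all `m ≥ m₀` and every set `P` of at most
`L ^ c` pairs of integers with first coordinates of size at most `L ^ δ`, at most `C L / log L` of these terms
are special for `P` and `m`; and at least `(L - log₂ n) / 2` of them are odd. -/
theorem result (r m₀ : ℕ) (hr : (m₀ = 2 ∧ r = 3) ∨ (m₀ = 3 ∧ r = 2)) :
    (∀ ε : ℝ, 0 < ε → ∃ C : ℝ,
      (∀ n L : ℕ, 1 ≤ n → (∀ i < L, ∀ j < L, T^[i] n = T^[j] n → i = j) → ∀ m : ℕ, m₀ ≤ m →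
        ∀ Q : Finset ℕ, Covers n L m Q →
          (L : ℝ) ≤ (1 + ε) * Real.logb 2 n + C * (1 + Q.card : ℝ) ^ ((r : ℝ) + ε)) ∧
      (∀ n k : ℕ, 1 ≤ n → IsTotalStoppingTime n k → ∀ m : ℕ, m₀ ≤ m →
        ∀ Q : Finset ℕ, Covers n k m Q →
          (k : ℝ) ≤ (1 + ε) * Real.logb 2 n + C * (1 + Q.card : ℝ) ^ ((r : ℝ) + ε))) ∧
    (∀ c : ℝ, r * c < 1 → ∀ ε : ℝ, 0 < ε → ∃ n₀ : ℕ, ∀ n k : ℕ, n₀ ≤ n →
      IsTotalStoppingTime n k → ∀ m : ℕ, m₀ ≤ m → ∀ Q : Finset ℕ,
        (Q.card : ℝ) ≤ Real.log n ^ c → Covers n k m Q →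
          |(k : ℝ) / Real.log n - 1 / Real.log 2| ≤ ε) ∧
    (∀ c δ : ℝ, 0 ≤ c → 0 ≤ δ → r * c < 1 → c + (r - 1 : ℕ) * δ < 1 →
      ∃ C : ℝ, ∀ n L : ℕ, 1 ≤ n → 2 ≤ L → Real.logb 2 n ≤ L →
        (∀ i < L, ∀ j < L, T^[i] n = T^[j] n → i = j) → ∀ m : ℕ, m₀ ≤ m →
        ∀ P : Finset (ℤ × ℤ), (P.card : ℝ) ≤ (L : ℝ) ^ c → (∀ q ∈ P, |(q.1 : ℝ)| ≤ (L : ℝ) ^ δ) →
        (∀ F : Finset ℕ, F ⊆ range L → (∀ t ∈ F, Special P m (T^[t] n : ℕ)) →
          (F.card : ℝ) ≤ C * (L / Real.log L)) ∧
        ((L : ℝ) - Real.logb 2 n) / 2 ≤ (((range L).filter fun t => T^[t] n % 2 = 1).card : ℝ)) := by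
  have hr23 : r = 2 ∨ r = 3 := by omega
  refine ⟨?_, ?_, ?_⟩
  · intro ε hε
    obtain ⟨C, _, hC⟩ := Pool.Agent.V5helper5.CO.nat_bound r hr23 hε
    refine ⟨C, fun n L hn hinj m hm Q hQ => ?_, fun n k hn hk m hm Q hQ => ?_⟩
    · exact hC n L hn hinj m (admissible hr hm).2.1 (admissible hr hm).2.2 Q hQ
    · exact hC n k hn (Pool.Agent.V5helper5.CO.time_inj (f := T) hk) m (admissible hr hm).2.1
        (admissible hr hm).2.2 Q hQ
  · intro c hc ε hε
    obtain ⟨n₀, h⟩ := Pool.Agent.V5helper5.CO.nat_const r hr23 hc hε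
    exact ⟨n₀, fun n k hn hk m hm Q hQ hcov => h n k hn hk m (admissible hr hm).2.1
      (admissible hr hm).2.2 Q hQ hcov⟩
  · intro c δ hc0 hδ0 h1 h2
    obtain ⟨C, _, hC⟩ := Pool.Agent.V5helper5.CO.sp_long r hr23 hc0 hδ0 h1 h2
    refine ⟨C, fun n L hn hL hlog hinj m hm P hP hB => ⟨fun F hF hsp => ?_, ?_⟩⟩
    · refine hC n L (by exact_mod_cast hn) hL (by exact_mod_cast hlog)
        (Pool.Agent.V5helper5.CO.inj_cast hinj) m (admissible hr hm).2.1 (admissible hr hm).2.2 P
        hP hB F hF (fun t ht => ?_)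
      rw [← Pool.Agent.V5helper5.CO.TN_cast]
      exact hsp t ht
    · have h3 := Pool.Agent.V5helper5.CO.odd_many (x := (n : ℤ)) (by exact_mod_cast hn) L
      have h4 : ((range L).filter fun t => T^[t] n % 2 = 1) =
          (range L).filter fun t => (Pool.Agent.V5helper5.AB.T 3 1)^[t] (n : ℤ) % 2 ≠ 0 := by
        apply Finset.filter_congr
        intro t _
        rw [← Pool.Agent.V5helper5.CO.TN_cast]
        have e : T^[t] n = Pool.Agent.V5helper5.CO.TN^[t] n := rfl
        rw [e]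
        omega
      rw [h4]
      exact_mod_cast h3

end Pool.Agent.Results.MP_f7abf1_nt.SquarefreeParts
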